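import Mathlib

namespace Pool.Agent.Results.MP_baf67b_al.Helly

open MvPolynomial

variable {K : Type} [Field K] {N : ℕ}

def ZClosed (Z : Set (Fin N → Kˣ)) : Prop :=
  ∃ P : Set (MvPolynomial (Fin N) K), ∀ x, x ∈ Z ↔ ∀ p ∈ P, eval (fun i => (x i : K)) p = 0

def IsChar (G : Subgroup (Fin N → Kˣ)) (c : (Fin N → Kˣ) → Kˣ) : Prop :=
  (∀ x ∈ G, ∀ y ∈ G, c (x * y) = c x * c y) ∧
    ∃ p : MvPolynomial (Fin N ⊕ Fin N) K, ∀ x ∈ G,
      (c x : K) = eval (Sum.elim (fun i => (x i : K)) (fun i => (x i : K)⁻¹)) p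

def GenBy (G : Subgroup (Fin N → Kˣ)) (r : ℕ) : Prop :=
  ∃ s : Fin r → (Fin N → Kˣ) → Kˣ, (∀ k, IsChar G (s k)) ∧
    ∀ c, IsChar G c → ∃ e : Fin r → ℤ, ∀ x ∈ G, c x = ∏ k, s k x ^ e k

def Coset (G : Subgroup (Fin N → Kˣ)) (g : Fin N → Kˣ) (H : Subgroup (Fin N → Kˣ)) : Prop :=
  g ∈ G ∧ H ≤ G ∧ ZClosed (H : Set (Fin N → Kˣ))

def Meet {ι : Type} (G : Subgroup (Fin N → Kˣ)) (g : ι → Fin N → Kˣ)
    (H : ι → Subgroup (Fin N → Kˣ)) (J : Set ι) : Prop :=
  ∃ x ∈ G, ∀ i ∈ J, (g i)⁻¹ * x ∈ H i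

theorem prim_rel {ι : Type} [Fintype ι] [DecidableEq ι] {r : ℕ} (w : ι → Fin r → ℤ)
    (J : Finset ι) (hJ : r < J.card) (l : ℕ) (hl : l.Prime) :
    ∃ b : ι → ℤ, (∀ i, i ∉ J → b i = 0) ∧ ∑ i, b i • w i = 0 ∧ ∃ j ∈ J, ¬ (l : ℤ) ∣ b j := by
  have h1 : ¬ LinearIndependent ℤ (fun i : J => w i) := fun h => by
    have := h.fintype_card_le_finrank
    simp at this
    omega
  obtain ⟨g, hg, j, hj⟩ := Fintype.not_linearIndependent_iff.1 h1
  have hd : Finset.univ.gcd g ≠ 0 := fun h => hj ((Finset.gcd_eq_zero_iff.1 h) j (by simp))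
  obtain ⟨g', hg', h1'⟩ := Finset.extract_gcd g (s := Finset.univ) ⟨j, by simp⟩
  refine ⟨fun i => if h : i ∈ J then g' ⟨i, h⟩ else 0, fun i hi => dif_neg hi, ?_, ?_⟩
  · rw [← Finset.sum_subset (Finset.subset_univ J) (fun i _ hi => by simp [hi]),
      ← Finset.sum_coe_sort J]
    simp only [Finset.coe_mem, dif_pos]
    have h2 : Finset.univ.gcd g • ∑ i : J, g' i • w i = 0 := by
      rw [Finset.smul_sum, ← hg]
      exact Finset.sum_congr rfl fun i _ => by rw [smul_smul, ← hg' i (by simp)]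
    exact (smul_eq_zero.1 h2).resolve_left hd
  · by_contra hc
    push Not at hc
    have : (l : ℤ) ∣ Finset.univ.gcd g' := Finset.dvd_gcd fun i _ => by
      simpa using hc i i.2
    rw [h1'] at this
    exact hl.one_lt.ne' (by exact_mod_cast Int.eq_one_of_dvd_one (by positivity) this)

theorem small_rel {ι X A : Type} [Fintype ι] [DecidableEq ι] [AddCommGroup X] [AddCommGroup A]
    {r : ℕ} (s : Fin r → X) (y : ι → X) (hy : ∀ i, ∃ e : Fin r → ℤ, ∑ k, e k • s k = y i)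
    (v : ι → A) (h : ∀ (J : Finset ι) (b : ι → ℤ), J.card ≤ r + 1 → (∀ i, i ∉ J → b i = 0) →
      ∑ i, b i • y i = 0 → ∑ i, b i • v i = 0)
    (a : ι → ℤ) (ha : ∑ i, a i • y i = 0) : ∑ i, a i • v i = 0 := by
  choose w hw using hy
  have key : ∀ l : ℕ, l.Prime → ∀ (m : ℕ) (T : Finset ι) (a : ι → ℤ), T.card = m →
      (∀ i, i ∉ T → a i = 0) → ∑ i, a i • y i = 0 →
      ∃ n : ℤ, ¬ (l : ℤ) ∣ n ∧ n • ∑ i, a i • v i = 0 := by
    intro l hl m
    have hp : Prime (l : ℤ) := Nat.prime_iff_prime_int.1 hl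
    induction m with
    | zero =>
      intro T a hT h0 ha
      exact ⟨1, hp.not_dvd_one, by rw [h T a (by omega) h0 ha, smul_zero]⟩
    | succ m ih =>
      intro T a hT h0 ha
      by_cases hm : T.card ≤ r + 1
      · exact ⟨1, hp.not_dvd_one, by rw [h T a hm h0 ha, smul_zero]⟩
      obtain ⟨J, hJT, hJ⟩ := Finset.exists_subset_card_eq (s := T) (n := r + 1) (by omega)
      obtain ⟨b, hb0, hb, j, hj, hlj⟩ := prim_rel w J (by omega) l hl
      have hby : ∑ i, b i • y i = 0 := by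
        have := congrArg (Fintype.linearCombination ℤ s) hb
        rw [map_sum, map_zero] at this
        simpa only [map_smul, Fintype.linearCombination_apply, hw] using this
      have hbv := h J b hJ.le hb0 hby
      obtain ⟨n, hn, hn'⟩ := ih (T.erase j) (fun i => b j * a i - a j * b i)
        (by rw [Finset.card_erase_of_mem (hJT hj)]; omega)
        (fun i hi => by
          by_cases hij : i = j
          · subst hij; ring
          · have hiT : i ∉ T := fun hh => hi (Finset.mem_erase.2 ⟨hij, hh⟩)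
            rw [h0 i hiT, hb0 i fun hh => hiT (hJT hh)]; ring)
        (by simp only [sub_smul, mul_smul, Finset.sum_sub_distrib, ← Finset.smul_sum, ha, hby,
          smul_zero, sub_self])
      refine ⟨n * b j, fun hd => (hp.dvd_or_dvd hd).elim hn hlj, ?_⟩
      simpa only [sub_smul, mul_smul, Finset.sum_sub_distrib, ← Finset.smul_sum, hbv,
        smul_zero, sub_zero] using hn'
  rw [← AddMonoid.addOrderOf_eq_one_iff]
  by_contra hne
  obtain ⟨l, hl, hd⟩ := Nat.exists_prime_and_dvd hne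
  obtain ⟨n, hn, hn'⟩ := key l hl _ Finset.univ a rfl (by simp) ha
  exact hn ((Int.natCast_dvd_natCast.2 hd).trans (addOrderOf_dvd_iff_zsmul_eq_zero.2 hn'))

def mono (m : Fin N → ℤ) : (Fin N → Kˣ) →* Kˣ where
  toFun x := ∏ i, x i ^ m i
  map_one' := by simp
  map_mul' x y := by simp [mul_zpow, Finset.prod_mul_distrib]

theorem mono_apply (m : Fin N → ℤ) (x : Fin N → Kˣ) : mono m x = ∏ i, x i ^ m i := rfl

theorem mono_add (m m' : Fin N → ℤ) (x : Fin N → Kˣ) :
    mono (m + m') x = mono m x * mono m' x := by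
  simp [mono_apply, zpow_add, Finset.prod_mul_distrib]

theorem mono_sub (m m' : Fin N → ℤ) (x : Fin N → Kˣ) :
    mono (m - m') x = mono m x / mono m' x := by
  rw [eq_div_iff_mul_eq', ← mono_add, sub_add_cancel]

theorem eval_eq (p : MvPolynomial (Fin N) K) (x : Fin N → Kˣ) :
    eval (fun i => (x i : K)) p =
      ∑ d ∈ p.support, coeff d p * (mono (fun i => (d i : ℤ)) x : K) := by
  rw [eval_eq']
  simp [mono_apply]

theorem mem_closed (H : Subgroup (Fin N → Kˣ)) (hH : ZClosed (H : Set (Fin N → Kˣ)))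
    (x : Fin N → Kˣ) (hx : ∀ m, (∀ h ∈ H, mono m h = 1) → mono m x = 1) : x ∈ H := by
  classical
  obtain ⟨P, hP⟩ := hH
  refine (hP x).2 fun p hp => ?_
  let ch : (Fin N →₀ ℕ) → (H →* K) := fun d =>
    (Units.coeHom K).comp ((mono fun i => (d i : ℤ)).comp H.subtype)
  let e : (H →* K) → K := fun c =>
    if h : ∃ d, ch d = c then (mono (fun i => (h.choose i : ℤ)) x : K) else 0
  have he : ∀ d, e (ch d) = (mono (fun i => (d i : ℤ)) x : K) := by
    intro d
    have h : ∃ d', ch d' = ch d := ⟨d, rfl⟩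
    simp only [e, dif_pos h]
    congr 1
    rw [← div_eq_one, ← mono_sub]
    refine hx _ fun g hg => ?_
    rw [mono_sub, div_eq_one]
    have h5 := DFunLike.congr_fun h.choose_spec ⟨g, hg⟩
    exact Units.ext h5
  let q : (H →* K) →₀ K := ∑ d ∈ p.support, Finsupp.single (ch d) (coeff d p)
  have hq : q = 0 := by
    refine linearIndependent_iff.1 (linearIndependent_monoidHom H K) q ?_
    funext g
    have := (hP g).1 g.2 p hp
    rw [eval_eq] at this
    simpa [q, map_sum, Finset.sum_apply, ch] using this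
  have := congrArg (Finsupp.linearCombination K e) hq
  rw [eval_eq]
  simpa [q, map_sum, he] using this

theorem reg_mono (G : Subgroup (Fin N → Kˣ)) (m : Fin N → ℤ) :
    IsChar G (mono m) := by
  refine ⟨fun x _ y _ => map_mul _ x y,
    ∏ i, (X (Sum.inl i) ^ (m i).toNat * X (Sum.inr i) ^ (-m i).toNat), fun x _ => ?_⟩
  simp only [mono_apply, map_prod, map_mul, map_pow, eval_X, Sum.elim_inl,
    Sum.elim_inr, Units.coe_prod]
  refine Finset.prod_congr rfl fun i _ => ?_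
  rw [← Units.val_inv_eq_inv_val, ← Units.val_pow_eq_pow_val, ← Units.val_pow_eq_pow_val, ← Units.val_mul, inv_pow,
    ← zpow_natCast, ← zpow_natCast, ← zpow_sub, Int.toNat_sub_toNat_neg]

def monoL (x : Fin N → Kˣ) : (Fin N → ℤ) →ₗ[ℤ] Additive Kˣ :=
  (AddMonoidHom.mk' (fun m => Additive.ofMul (mono m x))
    (fun m m' => by rw [mono_add]; rfl)).toIntLinearMap

theorem monoL_apply (x : Fin N → Kˣ) (m : Fin N → ℤ) :
    monoL x m = Additive.ofMul (mono m x) := rfl

theorem baer [IsAlgClosed K] : Module.Baer ℤ (Additive Kˣ) := by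
  let d1 : DivisibleBy (Additive Kˣ) ℕ := divisibleByOfSMulRightSurj _ _ fun {n} hn a => by
    obtain ⟨z, hz⟩ := IsAlgClosed.exists_pow_nat_eq (a.toMul : K) (Nat.pos_of_ne_zero hn)
    have hz0 : z ≠ 0 := by
      rintro rfl
      rw [zero_pow hn] at hz
      exact a.toMul.ne_zero hz.symm
    refine ⟨Additive.ofMul (Units.mk0 z hz0), ?_⟩
    apply Additive.toMul.injective
    ext
    simpa using hz
  let d2 : DivisibleBy (Additive Kˣ) ℤ := AddGroup.divisibleByIntOfDivisibleByNat _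
  exact Module.Baer.of_divisible _

theorem main [IsAlgClosed K] (G : Subgroup (Fin N → Kˣ)) (r : ℕ) (s : Fin r → (Fin N → Kˣ) → Kˣ)
    (hs : ∀ c, IsChar G c → ∃ e : Fin r → ℤ, ∀ x ∈ G, c x = ∏ k, s k x ^ e k)
    (ι : Type) [Finite ι] (g : ι → Fin N → Kˣ) (H : ι → Subgroup (Fin N → Kˣ))
    (hg : ∀ i, g i ∈ G) (hHG : ∀ i, H i ≤ G) (hH : ∀ i, ZClosed (H i : Set (Fin N → Kˣ)))
    (hempty : ¬ ∃ x ∈ G, ∀ i, (g i)⁻¹ * x ∈ H i) :
    ∃ J : Finset ι, J.card ≤ 1 + r ∧ ¬ ∃ x ∈ G, ∀ i ∈ J, (g i)⁻¹ * x ∈ H i := by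
  classical
  by_contra hc
  push Not at hc
  apply hempty
  have := Fintype.ofFinite ι
  rcases isEmpty_or_nonempty ι with hι | ⟨⟨i0⟩⟩
  · exact ⟨1, G.one_mem, fun i => hι.elim i⟩
  let Y : ι → Submodule ℤ (Fin N → ℤ) := fun i => ⨅ h : H i, LinearMap.ker (monoL h.1)
  have hY : ∀ i m, m ∈ Y i ↔ ∀ h ∈ H i, mono m h = 1 := fun i m => by
    simp [Y, monoL_apply]
  let σ : (∀ i, Y i) →ₗ[ℤ] (Fin N → ℤ) := ∑ i, (Y i).subtype ∘ₗ LinearMap.proj i
  let τ : (∀ i, Y i) →ₗ[ℤ] Additive Kˣ := ∑ i, monoL (g i) ∘ₗ (Y i).subtype ∘ₗ LinearMap.proj i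
  have hker : LinearMap.ker σ ≤ LinearMap.ker τ := by
    intro m hm
    have hm' : ∑ i, (m i).1 = 0 := by simpa [σ] using hm
    let y : ι → G → Additive Kˣ := fun i x => monoL x.1 (m i).1
    have := small_rel (fun k (x : G) => Additive.ofMul (s k x.1)) y (fun i => ?_)
      (fun i => monoL (g i) (m i).1) (fun J b hJ hb hby => ?_) (fun _ => 1) ?_
    · simpa [τ] using this
    · obtain ⟨e, he⟩ := hs _ (reg_mono G (m i).1)
      refine ⟨e, funext fun x => ?_⟩
      simp only [y, monoL_apply, he x.1 x.2, Finset.sum_apply, Pi.smul_apply, ofMul_prod,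
        ofMul_zpow]
    · obtain ⟨x, hx, hxJ⟩ := hc J (by omega)
      have h2 := congrFun hby ⟨x, hx⟩
      simp only [Finset.sum_apply, Pi.smul_apply, Pi.zero_apply, y] at h2
      rw [← h2]
      refine Finset.sum_congr rfl fun i _ => ?_
      by_cases hi : i ∈ J
      · rw [monoL_apply, monoL_apply]
        have h3 := (hY i _).1 (m i).2 _ (hxJ i hi)
        rw [map_mul, map_inv, inv_mul_eq_one] at h3
        rw [h3]
      · simp [hb i hi]
    · funext x
      simp only [one_smul, Finset.sum_apply, y, Pi.zero_apply]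
      rw [← map_sum, hm', map_zero]
  obtain ⟨θ, hθ⟩ := (baer (K := K)).extension_property ((LinearMap.ker σ).liftQ σ le_rfl)
    (LinearMap.ker_eq_bot.1 (Submodule.ker_liftQ_eq_bot _ _ _ le_rfl)) ((LinearMap.ker σ).liftQ τ hker)
  have hθ' : ∀ m, θ (σ m) = τ m := fun m => LinearMap.congr_fun hθ (Submodule.Quotient.mk m)
  let x : Fin N → Kˣ := fun j => (θ (Pi.single j 1)).toMul
  have hx : monoL x = θ := by
    refine (Pi.basisFun ℤ (Fin N)).ext fun j => ?_
    rw [Pi.basisFun_apply, monoL_apply, mono_apply, Finset.prod_eq_single j]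
    · simp [x]
    · intro k _ hk; simp [Pi.single_eq_of_ne hk]
    · simp
  have hxH : ∀ i, (g i)⁻¹ * x ∈ H i := fun i => by
    refine mem_closed _ (hH i) _ fun m hm => ?_
    have h1 := hθ' (Pi.single i ⟨m, (hY i m).2 hm⟩)
    have h2 : σ (Pi.single i ⟨m, (hY i m).2 hm⟩) = m := by
      simp only [σ, LinearMap.sum_apply, LinearMap.comp_apply, LinearMap.proj_apply]
      rw [Finset.sum_eq_single i] <;> simp +contextual [Pi.single_eq_of_ne]
    have h3 : τ (Pi.single i ⟨m, (hY i m).2 hm⟩) = monoL (g i) m := by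
      simp only [τ, LinearMap.sum_apply, LinearMap.comp_apply, LinearMap.proj_apply]
      rw [Finset.sum_eq_single i] <;> simp +contextual [Pi.single_eq_of_ne]
    rw [h2, h3, ← hx, monoL_apply, monoL_apply] at h1
    rw [map_mul, map_inv, inv_mul_eq_one]
    exact (Additive.ofMul.injective h1).symm
  refine ⟨x, ?_, hxH⟩
  have := G.mul_mem (hg i0) (hHG i0 (hxH i0))
  rwa [mul_inv_cancel_left] at this

theorem result (K : Type) [Field K] [IsAlgClosed K] (N : ℕ) (G : Subgroup (Fin N → Kˣ))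
    (_hG : ZClosed (G : Set (Fin N → Kˣ))) (r : ℕ) (hr : GenBy G r)
    (ι : Type) [Finite ι] (g : ι → Fin N → Kˣ) (H : ι → Subgroup (Fin N → Kˣ))
    (hc : ∀ i, Coset G (g i) (H i)) (hempty : ¬ Meet G g H Set.univ) :
    ∃ J : Finset ι, J.card ≤ 1 + r ∧ ¬ Meet G g H J := by
  obtain ⟨s, -, hs⟩ := hr
  exact main G r s hs ι g H (fun i => (hc i).1) (fun i => (hc i).2.1) (fun i => (hc i).2.2)
    fun ⟨x, hx, h⟩ => hempty ⟨x, hx, fun i _ => h i⟩

end Pool.Agent.Results.MP_baf67b_al.Helly
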